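import Pool.Agent.Results.MP_807794_lc.StationaryAntichain

/-!
# Suslin tree uniformizations force stationary antichains

The question asks whether `◇⁺` implies that for every ladder system `C` there is an almost Suslin
Aronszajn tree `T ⊆ 2^{<ω₁}` such that every monochromatic `ω`-colouring of `C` has a Suslin
`T`-uniformization. The answer is no, in the strongest sense: `◇⁺` (and already `2^ℵ₀ < 2^ℵ₁`) implies
that for EVERY ladder system `C` and every Aronszajn tree `T ⊆ 2^{<ω₁}` for which all monochromatic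
colourings of `C` (already those with two colours) have Suslin `T`-uniformizations, `T` has a
stationary antichain.

The proof uses the weak diamond in the form proved in the file
`Pool.Agent.Results.MP_807794_lc.StationaryAntichain`.
-/

open Cardinal Ordinal Set

namespace Pool.Agent.Results.MP_b963f4_lc.NoAlmostSuslin

/-- The set of all countable ordinals. -/
abbrev Om1 : Type 1 := Set.Iio (Ordinal.omega.{0} 1)

/-- A node of `2^{<ω₁}`: a function `val` from a countable ordinal `ht` (the set of all smaller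
ordinals) to `{0, 1}`. The height of the node is its domain `ht`. -/
structure Node : Type 1 where
  ht : Ordinal.{0}
  ht_lt : ht < ω_ 1
  val : Set.Iio ht → Bool

/-- The restriction of the node `t` to the ordinal `ξ` (to the ordinal `min ξ (ht t)`). -/
noncomputable def Node.res (t : Node) (ξ : Ordinal.{0}) : Node where
  ht := min ξ t.ht
  ht_lt := (min_le_right _ _).trans_lt t.ht_lt
  val := fun η => t.val ⟨η.1, Set.mem_Iio.2 (lt_of_lt_of_le (Set.mem_Iio.1 η.2) (min_le_right _ _))⟩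

/-- `s` is extended by `t`: `s` is the restriction of `t` to the domain of `s`, which is at most the
domain of `t`. -/
def Ext (s t : Node) : Prop := s.ht ≤ t.ht ∧ t.res s.ht = s

/-- `T` is closed under restriction. -/
def DownClosed (T : Set Node) : Prop := ∀ t ∈ T, ∀ ξ ≤ t.ht, t.res ξ ∈ T

/-- A chain: any two nodes are comparable. -/
def Chain (B : Set Node) : Prop := ∀ s ∈ B, ∀ t ∈ B, Ext s t ∨ Ext t s

/-- An antichain: any two different nodes are incomparable. -/
def Antichain (A : Set Node) : Prop := ∀ s ∈ A, ∀ t ∈ A, Ext s t → s = t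

/-- An Aronszajn tree `T ⊆ 2^{<ω₁}`. -/
structure IsAronszajn (T : Set Node) : Prop where
  closed : DownClosed T
  level_nonempty : ∀ α < ω_ 1, ∃ t ∈ T, t.ht = α
  level_countable : ∀ α : Ordinal.{0}, {t | t ∈ T ∧ t.ht = α}.Countable
  chain_countable : ∀ B ⊆ T, Chain B → B.Countable

/-- `S` is a Suslin subtree of `T`. -/
structure IsSuslinSubtree (T S : Set Node) : Prop where
  subset : S ⊆ T
  closed : DownClosed S
  uncountable : ¬ S.Countable
  chain_countable : ∀ B ⊆ S, Chain B → B.Countable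
  antichain_countable : ∀ A ⊆ S, Antichain A → A.Countable

/-- A ladder system: for every countable limit ordinal `α`, the set `C α` is a cofinal subset
of `α` of order type `ω`, i.e. the range of a strictly increasing sequence cofinal in `α`. -/
def IsLadderSystem (C : Ordinal.{0} → Set Ordinal.{0}) : Prop :=
  ∀ α < ω_ 1, Order.IsSuccLimit α → ∃ e : ℕ → Ordinal.{0}, StrictMono e ∧ Set.range e = C α ∧
    (∀ n, e n < α) ∧ ∀ β < α, ∃ n, β < e n

/-- The colouring `f` of the ladder system `C` (the colour of `ξ ∈ C α` is `f α ξ`) is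
monochromatic: every `f α` is constant on `C α`. -/
def Monochromatic (C : Ordinal.{0} → Set Ordinal.{0}) (f : Ordinal.{0} → Ordinal.{0} → ℕ) : Prop :=
  ∀ α < ω_ 1, Order.IsSuccLimit α → ∃ n, ∀ ξ ∈ C α, f α ξ = n

/-- `h` uniformizes the colouring `f` of `C` on `S`: for every `t ∈ S` of limit height `α`,
`h (t ↾ ξ) = f α ξ` for all but finitely many `ξ ∈ C α`. -/
def Uniformizes (C : Ordinal.{0} → Set Ordinal.{0}) (f : Ordinal.{0} → Ordinal.{0} → ℕ)
    (S : Set Node) (h : Node → ℕ) : Prop :=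
  ∀ t ∈ S, Order.IsSuccLimit t.ht → {ξ | ξ ∈ C t.ht ∧ h (t.res ξ) ≠ f t.ht ξ}.Finite

/-- `f` has a Suslin `T`-uniformization. -/
def HasSuslinUniformization (T : Set Node) (C : Ordinal.{0} → Set Ordinal.{0})
    (f : Ordinal.{0} → Ordinal.{0} → ℕ) : Prop :=
  ∃ (S : Set Node) (h : Node → ℕ), IsSuslinSubtree T S ∧ Uniformizes C f S h

/-- `T` has a stationary antichain. -/
def HasStationaryAntichain (T : Set Node) : Prop :=
  ∃ A ⊆ T, Antichain A ∧ IsStationary {δ : Om1 | ∃ a ∈ A, a.ht = δ.1}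

/-- The principle `◇⁺`. -/
def DiamondPlus : Prop :=
  ∃ P : Om1 → Set (Set Om1), (∀ α, (P α).Countable) ∧
    ∀ X : Set Om1, ∃ D : Set Om1, IsClub D ∧
      ∀ α ∈ D, X ∩ Set.Iio α ∈ P α ∧ D ∩ Set.Iio α ∈ P α

theorem Node.ext' {s t : Node} (h : s.ht = t.ht)
    (hv : ∀ ξ (hs : ξ < s.ht) (ht : ξ < t.ht), s.val ⟨ξ, hs⟩ = t.val ⟨ξ, ht⟩) : s = t := by
  obtain ⟨a, ha, f⟩ := s
  obtain ⟨b, hb, g⟩ := t
  obtain rfl : a = b := h
  congr 1
  funext ξ
  exact hv ξ.1 ξ.2 ξ.2

theorem Node.res_ht {t : Node} {ξ : Ordinal.{0}} (h : ξ ≤ t.ht) : (t.res ξ).ht = ξ := min_eq_left h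

theorem Node.res_res {t : Node} {ξ η : Ordinal.{0}} (h : ξ ≤ η) : (t.res η).res ξ = t.res ξ := by
  refine Node.ext' ?_ ?_
  · show min ξ (min η t.ht) = min ξ t.ht
    rw [← min_assoc, min_eq_left h]
  · intro ζ _ _
    rfl

theorem small_of_levels (T : Set Node)
    (h : ∀ α : Ordinal.{0}, {t | t ∈ T ∧ t.ht = α}.Countable) : Small.{0} T := by
  have e : T = ⋃ α : Om1, {t | t ∈ T ∧ t.ht = α.1} := by
    ext t
    rw [Set.mem_iUnion]
    exact ⟨fun ht => ⟨⟨t.ht, t.ht_lt⟩, ht, rfl⟩, fun ⟨_, ht, _⟩ => ht⟩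
  rw [e]
  have : ∀ α : Om1, Small.{0} {t | t ∈ T ∧ t.ht = α.1} := by
    intro α
    have := (h α.1).to_subtype
    exact Countable.toSmall _
  exact small_iUnion _

theorem countable_below' (T : Set Node)
    (h : ∀ α : Ordinal.{0}, {t | t ∈ T ∧ t.ht = α}.Countable) (δ : Om1) :
    {t | t ∈ T ∧ t.ht < δ.1}.Countable := by
  have e : {t | t ∈ T ∧ t.ht < δ.1} = ⋃ β : {β : Om1 // β < δ}, {t | t ∈ T ∧ t.ht = β.1.1} := by
    ext t
    rw [Set.mem_iUnion]
    constructor
    · rintro ⟨h1, h2⟩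
      exact ⟨⟨⟨t.ht, t.ht_lt⟩, h2⟩, h1, rfl⟩
    · rintro ⟨β, h1, h2⟩
      refine ⟨h1, ?_⟩
      rw [h2]
      exact β.2
  have : Countable {β : Om1 // β < δ} :=
    Pool.Agent.Results.MP_807794_lc.StationaryAntichain.countable_below δ
  rw [e]
  exact Set.countable_iUnion (fun β => h _)

open Pool.Agent.Results.MP_807794_lc.StationaryAntichain in
/-- The main step. -/
theorem main (h2 : (2 : Cardinal.{0}) ^ ℵ₀ < 2 ^ ℵ_ 1)
    (C : Ordinal.{0} → Set Ordinal.{0}) (hC : IsLadderSystem C) (T : Set Node)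
    (hTc : DownClosed T) (hlev : ∀ α : Ordinal.{0}, {t | t ∈ T ∧ t.ht = α}.Countable)
    (hunif : ∀ f : Ordinal.{0} → Ordinal.{0} → ℕ, Monochromatic C f → (∀ α ξ, f α ξ ≤ 1) →
      ∃ (S : Set Node) (h : Node → ℕ), S ⊆ T ∧ DownClosed S ∧ ¬ S.Countable ∧
        Uniformizes C f S h) :
    HasStationaryAntichain T := by
  classical
  have hsmall : Small.{0} T := small_of_levels T hlev
  let X : Type := Shrink.{0} T
  let ρ : X → Ordinal.{0} := fun x => ((equivShrink T).symm x).1.ht
  have hXc : ∀ δ : Om1, Countable {x : X // ρ x < δ.1} := by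
    intro δ
    have h3 := (countable_below' T hlev δ).to_subtype
    refine Function.Injective.countable
      (f := fun x : {x : X // ρ x < δ.1} =>
        (⟨((equivShrink T).symm x.1).1, ((equivShrink T).symm x.1).2, x.2⟩ :
          {t | t ∈ T ∧ t.ht < δ.1})) ?_
    intro x y hxy
    have h4 : ((equivShrink T).symm x.1).1 = ((equivShrink T).symm y.1).1 := by
      have := Subtype.ext_iff.1 hxy
      exact this
    exact Subtype.ext ((equivShrink T).symm.injective (Subtype.ext h4))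
  let ex : (X → Option ℕ) → Node → Option ℕ := fun h s =>
    if hs : s ∈ T then h (equivShrink T ⟨s, hs⟩) else none
  have hex : ∀ (δ : Om1) (h h' : X → Option ℕ), (∀ x, ρ x < δ.1 → h x = h' x) →
      ∀ s : Node, s.ht < δ.1 → ex h s = ex h' s := by
    intro δ h h' hh s hs
    by_cases hsT : s ∈ T
    · simp only [ex, dif_pos hsT]
      apply hh
      simp only [ρ, Equiv.symm_apply_apply]
      exact hs
    · simp only [ex, dif_neg hsT]
  let D : (X → Option ℕ) → Om1 → Node → Prop := fun h δ s => s ∈ T ∧ s.ht = δ.1 ∧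
    ∀ ξ < δ.1, (ex h (s.res ξ)).isSome = true
  have : Nonempty Node := ⟨⟨0, omega_pos 1, fun _ => false⟩⟩
  let pick : (X → Option ℕ) → Om1 → Node := fun h δ => Classical.epsilon (D h δ)
  let F : Om1 → (X → Option ℕ) → Bool := fun δ h =>
    decide ({ξ | ξ ∈ C δ.1 ∧ ex h ((pick h δ).res ξ) ≠ some 1}.Finite)
  have hDeq : ∀ (δ : Om1) (h h' : X → Option ℕ), (∀ x, ρ x < δ.1 → h x = h' x) →
      D h δ = D h' δ := by
    intro δ h h' hh
    funext s
    apply propext
    have key : s.ht = δ.1 → ∀ ξ < δ.1, ex h (s.res ξ) = ex h' (s.res ξ) := by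
      intro hs ξ hξ
      apply hex δ h h' hh
      rw [Node.res_ht (hs ▸ hξ.le)]
      exact hξ
    constructor
    · rintro ⟨h0, h1, h2⟩
      exact ⟨h0, h1, fun ξ hξ => by rw [← key h1 ξ hξ]; exact h2 ξ hξ⟩
    · rintro ⟨h0, h1, h2⟩
      exact ⟨h0, h1, fun ξ hξ => by rw [key h1 ξ hξ]; exact h2 ξ hξ⟩
  -- elements of the ladder at `δ` are below `δ` if `δ` is a limit
  let L : Set Om1 := {δ | Order.IsSuccLimit δ.1}
  have hL : IsClub L := isClub_limits
  have hClt : ∀ δ : Om1, δ ∈ L → ∀ ξ ∈ C δ.1, ξ < δ.1 := by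
    intro δ hδ ξ hξ
    obtain ⟨e, -, he2, he3, -⟩ := hC δ.1 δ.2 hδ
    rw [← he2] at hξ
    obtain ⟨n, rfl⟩ := hξ
    exact he3 n
  -- a version of `F` which is correct at all `δ`
  let F' : Om1 → (X → Option ℕ) → Bool := fun δ h =>
    if δ ∈ L ∧ ∃ s, D h δ s then F δ h else false
  have hF : ∀ (δ : Om1) (h h' : X → Option ℕ), (∀ x, ρ x < δ.1 → h x = h' x) →
      F' δ h = F' δ h' := by
    intro δ h h' hh
    have e1 := hDeq δ h h' hh
    have e2 : pick h δ = pick h' δ := by
      show Classical.epsilon (D h δ) = Classical.epsilon (D h' δ)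
      rw [e1]
    by_cases hc : δ ∈ L ∧ ∃ s, D h δ s
    · have hc' : δ ∈ L ∧ ∃ s, D h' δ s := by rw [← e1]; exact hc
      simp only [F', if_pos hc, if_pos hc']
      have hD : D h' δ (pick h' δ) := Classical.epsilon_spec hc'.2
      show decide _ = decide _
      rw [decide_eq_decide, e2]
      have e3 : {ξ | ξ ∈ C δ.1 ∧ ex h ((pick h' δ).res ξ) ≠ some 1} =
          {ξ | ξ ∈ C δ.1 ∧ ex h' ((pick h' δ).res ξ) ≠ some 1} := by
        ext ξ
        constructor
        · rintro ⟨h1, h2⟩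
          refine ⟨h1, ?_⟩
          rw [← hex δ h h' hh _ ?_]
          · exact h2
          · rw [Node.res_ht (hD.2.1 ▸ (hClt δ hc.1 ξ h1).le)]
            exact hClt δ hc.1 ξ h1
        · rintro ⟨h1, h2⟩
          refine ⟨h1, ?_⟩
          rw [hex δ h h' hh _ ?_]
          · exact h2
          · rw [Node.res_ht (hD.2.1 ▸ (hClt δ hc.1 ξ h1).le)]
            exact hClt δ hc.1 ξ h1
      rw [e3]
    · have hc' : ¬ (δ ∈ L ∧ ∃ s, D h' δ s) := by rw [← e1]; exact hc
      simp only [F', if_neg hc, if_neg hc']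
  have hV : #(Option ℕ) ≤ 𝔠 := by
    have : #(Option ℕ) ≤ ℵ₀ := Cardinal.mk_le_aleph0
    exact this.trans aleph0_le_continuum
  have h2' : (𝔠 : Cardinal.{1}) < 2 ^ (ℵ_ 1 : Cardinal.{1}) := by
    have := Cardinal.lift_lt.{0, 1}.2 h2
    simpa using this
  obtain ⟨g, hg⟩ := weak_diamond ρ hXc hV h2' F' hF
  -- the colouring
  let f : Ordinal.{0} → Ordinal.{0} → ℕ := fun α _ =>
    if h : α < ω_ 1 then (if g ⟨α, h⟩ = true then 1 else 0) else 0
  have hmono : Monochromatic C f := fun α hα _ => ⟨_, fun ξ _ => rfl⟩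
  have hle : ∀ α ξ, f α ξ ≤ 1 := by
    intro α ξ
    simp only [f]
    split_ifs <;> simp
  obtain ⟨S, φ, hST, hSc, hSu, hφ⟩ := hunif f hmono hle
  let A : Set Node := {t | t ∈ T ∧ t ∉ S ∧ ∀ ξ < t.ht, t.res ξ ∈ S}
  refine ⟨A, fun t ht => ht.1, ?_, ?_⟩
  · intro a ha b hb hab
    by_contra hne
    apply ha.2.1
    have hlt : a.ht < b.ht := by
      refine lt_of_le_of_ne hab.1 ?_
      intro he
      apply hne
      rw [← hab.2]
      refine (Node.ext' ?_ ?_)
      · show min a.ht b.ht = b.ht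
        rw [he, min_self]
      · intro ξ _ _
        rfl
    have := hb.2.2 a.ht hlt
    rw [hab.2] at this
    exact this
  · by_contra hstat
    rw [not_isStationary_iff] at hstat
    obtain ⟨E, hE, hdisj⟩ := hstat
    let h : X → Option ℕ := fun x =>
      if ((equivShrink T).symm x).1 ∈ S then some (φ (((equivShrink T).symm x).1)) else none
    have hexh : ∀ s ∈ T, ex h s = if s ∈ S then some (φ s) else none := by
      intro s hs
      simp only [ex, dif_pos hs, h, Equiv.symm_apply_apply]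
    obtain ⟨δ, hδ, hne⟩ := hg h (E ∩ L) (hE.inter cof_W_ne hL)
    apply hne
    have hδL : Order.IsSuccLimit δ.1 := hδ.2
    -- a node of height δ all of whose predecessors are in S
    have hexs : ∃ s, D h δ s := by
      have : ∃ t ∈ S, δ.1 ≤ t.ht := by
        by_contra hno
        push Not at hno
        refine hSu ((countable_below' T hlev δ).mono ?_)
        intro t ht
        exact ⟨hST ht, hno t ht⟩
      obtain ⟨t, htS, hδt⟩ := this
      refine ⟨t.res δ.1, hST (hSc t htS δ.1 hδt), Node.res_ht hδt, ?_⟩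
      intro ξ hξ
      rw [Node.res_res hξ.le]
      have : t.res ξ ∈ S := hSc t htS ξ (hξ.le.trans hδt)
      rw [hexh _ (hST this), if_pos this]
      rfl
    have hD : D h δ (pick h δ) := Classical.epsilon_spec hexs
    have hF'F : F' δ h = F δ h := by
      simp only [F']
      rw [if_pos ⟨hδ.2, hexs⟩]
    rw [hF'F]
    set s := pick h δ with hs_def
    have hpred : ∀ ξ < δ.1, s.res ξ ∈ S := by
      intro ξ hξ
      have h1 := hD.2.2 ξ hξ
      have h3 : s.res ξ ∈ T := hTc s hD.1 ξ (by rw [hD.2.1]; exact hξ.le)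
      rw [hexh _ h3] at h1
      by_contra h4
      rw [if_neg h4] at h1
      simp at h1
    have hval : ∀ ξ < δ.1, ex h (s.res ξ) = some (φ (s.res ξ)) := by
      intro ξ hξ
      rw [hexh _ (hST (hpred ξ hξ)), if_pos (hpred ξ hξ)]
    have hsS : s ∈ S := by
      by_contra hsS
      have hsA : s ∈ A := ⟨hD.1, hsS, fun ξ hξ => hpred ξ (by rw [← hD.2.1]; exact hξ)⟩
      exact (Set.disjoint_left.1 hdisj) ⟨s, hsA, hD.2.1⟩ hδ.1
    have hfin := hφ s hsS (by rw [hD.2.1]; exact hδL)
    rw [hD.2.1] at hfin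
    have hf : ∀ ξ, f δ.1 ξ = if g δ = true then 1 else 0 := by
      intro ξ
      have : δ.1 < ω_ 1 := δ.2
      simp only [f, dif_pos this]
    have hinf : (C δ.1).Infinite := by
      obtain ⟨e, he1, he2, -⟩ := hC δ.1 δ.2 hδL
      rw [← he2]
      exact Set.infinite_range_of_injective he1.injective
    cases hgδ : g δ
    · -- colour 0
      show decide _ = false
      rw [decide_eq_false_iff_not]
      intro h1
      apply hinf
      refine (hfin.union h1).subset ?_
      intro ξ hξ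
      by_contra hno
      rw [Set.mem_union, not_or] at hno
      obtain ⟨n1, n2⟩ := hno
      have hξδ := hClt δ hδL ξ hξ
      have m1 : φ (s.res ξ) = f δ.1 ξ := by
        by_contra hm
        exact n1 ⟨hξ, hm⟩
      have m2 : ex h (s.res ξ) = some 1 := by
        by_contra hm
        exact n2 ⟨hξ, hm⟩
      rw [hval ξ hξδ, m1, hf ξ, hgδ] at m2
      simp at m2
    · show decide _ = true
      rw [decide_eq_true_iff]
      refine hfin.subset ?_
      rintro ξ ⟨hξ, hno⟩
      refine ⟨hξ, fun hm => hno ?_⟩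
      rw [hval ξ (hClt δ hδL ξ hξ), hm, hf ξ, hgδ]
      simp

/-- `◇⁺` implies CH. -/
theorem ch_of_diamondPlus (h : DiamondPlus) : (2 : Cardinal.{0}) ^ ℵ₀ < 2 ^ ℵ_ 1 := by
  obtain ⟨P, hP, hg⟩ := h
  -- subsets of ω are guessed
  let emb : ℕ → Om1 := fun n => ⟨(n : Ordinal.{0}), (natCast_lt_omega0 n).trans_le (omega0_le_omega 1)⟩
  have hemb : Function.Injective emb := by
    intro m n hmn
    have : (m : Ordinal.{0}) = (n : Ordinal.{0}) := congrArg Subtype.val hmn
    exact_mod_cast this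
  have hcov : ∀ Y : Set ℕ, ∃ α : Om1, ∃ Z ∈ P α, Y = emb ⁻¹' Z := by
    intro Y
    obtain ⟨D, hD, hDg⟩ := hg (emb '' Y)
    have hω : (ω : Ordinal.{0}) < Ordinal.omega.{0} 1 := omega0_lt_omega_one
    obtain ⟨α, hα, hle⟩ := hD.isCofinal ⟨ω, hω⟩
    refine ⟨α, _, (hDg α hα).1, ?_⟩
    ext n
    constructor
    · intro hn
      refine ⟨⟨n, hn, rfl⟩, ?_⟩
      have h1 : (n : Ordinal.{0}) < ω := natCast_lt_omega0 n
      have h2 : ω ≤ α.1 := hle
      exact h1.trans_le h2
    · rintro ⟨⟨m, hm, hmn⟩, -⟩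
      exact hemb hmn ▸ hm
  have hle : (2 : Cardinal.{0}) ^ ℵ₀ ≤ ℵ_ 1 := by
    have h1 : Cardinal.lift.{1} #(Set ℕ) ≤ #(Σ α : Om1, P α) := by
      choose a Z hZ hYZ using hcov
      rw [← Cardinal.mk_uLift]
      refine Cardinal.mk_le_of_injective
        (f := fun Y : ULift.{1} (Set ℕ) => (⟨a Y.down, Z Y.down, hZ Y.down⟩ : Σ α : Om1, P α)) ?_
      intro Y Y' hYY
      have e1 : Z Y.down = Z Y'.down := by
        have := congrArg (fun x : (Σ α : Om1, P α) => (x.2.1 : Set Om1)) hYY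
        exact this
      apply ULift.down_injective
      rw [hYZ Y.down, hYZ Y'.down, e1]
    have h3 : #(Σ α : Om1, P α) ≤ (ℵ_ 1 : Cardinal.{1}) := by
      rw [mk_sigma]
      calc _ ≤ sum (fun _ : Om1 => (ℵ₀ : Cardinal.{1})) :=
            sum_le_sum _ _ (fun α => Cardinal.le_aleph0_iff_set_countable.2 (hP α))
        _ = #Om1 * ℵ₀ := by simp
        _ = ℵ_ 1 := by
            rw [Pool.Agent.Results.MP_807794_lc.StationaryAntichain.mk_W]
            exact Cardinal.mul_eq_left (aleph0_le_aleph 1) (aleph0_le_aleph 1) aleph0_ne_zero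
    have h4 := h1.trans h3
    have h5 : Cardinal.lift.{1} (#(Set ℕ)) ≤ Cardinal.lift.{1} (ℵ_ 1 : Cardinal.{0}) := by
      simpa using h4
    have h6 := Cardinal.lift_le.1 h5
    simpa [Cardinal.mk_set] using h6
  exact hle.trans_lt (Cardinal.cantor _)

/-- There is a ladder system. -/
theorem exists_ladder : ∃ C : Ordinal.{0} → Set Ordinal.{0}, IsLadderSystem C := by
  classical
  have key : ∀ α : Ordinal.{0}, α < ω_ 1 → Order.IsSuccLimit α → ∃ e : ℕ → Ordinal.{0},
      StrictMono e ∧ (∀ n, e n < α) ∧ ∀ β < α, ∃ n, β < e n := by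
    intro α hα hlim
    have hcount : (Set.Iio α).Countable := by
      have := Pool.Agent.Results.MP_807794_lc.StationaryAntichain.countable_below ⟨α, hα⟩
      have h2 : (Set.Iio α) = Set.range (fun β : {β : Om1 // β < ⟨α, hα⟩} => β.1.1) := by
        ext x
        constructor
        · intro hx
          exact ⟨⟨⟨x, hx.trans hα⟩, hx⟩, rfl⟩
        · rintro ⟨β, rfl⟩
          exact β.2
      rw [h2]
      exact Set.countable_range _
    have hne : (Set.Iio α).Nonempty := ⟨0, hlim.bot_lt⟩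
    obtain ⟨p, hp⟩ := hcount.exists_eq_range hne
    have hp' : ∀ n, p n < α := fun n => by
      have : p n ∈ Set.Iio α := hp ▸ Set.mem_range_self n
      exact this
    let e : ℕ → {x : Ordinal.{0} // x < α} := fun n => Nat.rec (⟨p 0, hp' 0⟩)
      (fun n x => ⟨max (Order.succ x.1) (Order.succ (p n)),
        max_lt (hlim.succ_lt x.2) (hlim.succ_lt (hp' n))⟩) n
    refine ⟨fun n => (e n).1, ?_, fun n => (e n).2, ?_⟩
    · apply strictMono_nat_of_lt_succ
      intro n
      exact (Order.lt_succ _).trans_le (le_max_left _ _)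
    · intro β hβ
      have : β ∈ Set.range p := hp ▸ hβ
      obtain ⟨n, rfl⟩ := this
      exact ⟨n + 1, (Order.lt_succ _).trans_le (le_max_right _ _)⟩
  choose e he1 he2 he3 using key
  refine ⟨fun α => if h : α < ω_ 1 ∧ Order.IsSuccLimit α then Set.range (e α h.1 h.2) else ∅, ?_⟩
  intro α hα hlim
  refine ⟨e α hα hlim, he1 _ _ _, ?_, he2 _ _ _, he3 _ _ _⟩
  show _ = dite _ _ _
  rw [dif_pos ⟨hα, hlim⟩]

/-- **Theorem.** (1) Assume `2 ^ ℵ₀ < 2 ^ ℵ₁`, or assume `◇⁺`. Then for every ladder system `C` and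
every Aronszajn tree `T ⊆ 2^{<ω₁}`, if every monochromatic `ω`-colouring of `C` has a Suslin
`T`-uniformization, then `T` has a stationary antichain.
(2) Hence `◇⁺` refutes the statement that for every ladder system `C` there is an almost Suslin
Aronszajn tree `T ⊆ 2^{<ω₁}` such that every monochromatic `ω`-colouring of `C` has a Suslin
`T`-uniformization. -/
theorem result :
    ((2 : Cardinal.{0}) ^ ℵ₀ < 2 ^ ℵ_ 1 ∨ DiamondPlus →
      ∀ C, IsLadderSystem C → ∀ T, IsAronszajn T →
        (∀ f, Monochromatic C f → HasSuslinUniformization T C f) → HasStationaryAntichain T) ∧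
    (DiamondPlus → ¬ ∀ C, IsLadderSystem C → ∃ T, IsAronszajn T ∧ ¬ HasStationaryAntichain T ∧
      ∀ f, Monochromatic C f → HasSuslinUniformization T C f) := by
  have key : ((2 : Cardinal.{0}) ^ ℵ₀ < 2 ^ ℵ_ 1 ∨ DiamondPlus →
      ∀ C, IsLadderSystem C → ∀ T, IsAronszajn T →
        (∀ f, Monochromatic C f → HasSuslinUniformization T C f) →
          HasStationaryAntichain T) := by
    intro h C hC T hT hf
    have h2 : (2 : Cardinal.{0}) ^ ℵ₀ < 2 ^ ℵ_ 1 := h.elim id ch_of_diamondPlus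
    refine main h2 C hC T hT.closed hT.level_countable ?_
    intro f hfm _
    obtain ⟨S, φ, hS, hφ⟩ := hf f hfm
    exact ⟨S, φ, hS.subset, hS.closed, hS.uncountable, hφ⟩
  refine ⟨key, fun hD hall => ?_⟩
  obtain ⟨C, hC⟩ := exists_ladder
  obtain ⟨T, hT, hns, hf⟩ := hall C hC
  exact hns (key (Or.inr hD) C hC T hT hf)

end Pool.Agent.Results.MP_b963f4_lc.NoAlmostSuslin
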